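import Pool.Agent.Helper613.DHCC
import Pool.Agent.Helper613.DHHyper
import Pool.Agent.Helper613.DHPoly

set_option autoImplicit false

namespace Pool.Agent.Results.MP_87d5f7_gt.DoubledPentagon

open Pool.Agent.Helper613.DH

/-- There is a word-hyperbolic Coxeter group of finite rank which admits a convex cocompact
representation into some `Isom(ℍ^d)` but which is not realized as a convex cocompact reflection
group of `Isom(ℍ^n)` for any `n`. -/
theorem result : ∃ (B : Type) (_ : Finite B) (M : CoxeterMatrix B),
    WordHyperbolic M.Group ∧ AdmitsConvexCocompactRep M.Group ∧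
      ∀ n : ℕ, ¬ RealizedAsReflectionGroup n M.Group := by
  refine ⟨Fin 5 × Fin 2, inferInstance, pentM, W_wordHyperbolic, W_admits, ?_⟩
  rintro n ⟨N, e, hP, -, ⟨φ⟩⟩
  exact not_polytope hP φ

end Pool.Agent.Results.MP_87d5f7_gt.DoubledPentagon
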